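import Mathlib

/-! Coverings of the unit sphere of `ℝ^n` by equal caps. -/

namespace Pool.Agent.H.MP_7917db_co

/-- The closed caps of angular radius `r` centred at the points of `X` cover the unit sphere. -/
def Covers {n : ℕ} (X : Finset (EuclideanSpace ℝ (Fin n))) (r : ℝ) : Prop :=
  ∀ y : EuclideanSpace ℝ (Fin n), ‖y‖ = 1 → ∃ x ∈ X, Real.cos r ≤ inner ℝ x y

/-- `r(n,k)`: the least angular radius of at most `n + k` equal caps covering the sphere. -/
noncomputable def rad (n k : ℕ) : ℝ :=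
  sInf {r | 0 ≤ r ∧ r ≤ Real.pi ∧ ∃ X : Finset (EuclideanSpace ℝ (Fin n)),
    (∀ x ∈ X, ‖x‖ = 1) ∧ X.card ≤ n + k ∧ Covers X r}

end Pool.Agent.H.MP_7917db_co
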