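import Pool.Agent.H.MP_ccba48_gt.M
import Pool.Agent.H.MP_7917db_co.Defs

/-! Bounds for `r(n,k)` and the extremal configurations. -/

namespace Pool.Agent.H.MP_7917db_co
open Finset Matrix Function Pool.Agent.H.MP_ccba48_gt

variable {n : ℕ} {ι : Type*}

lemma cover_of_polar (f : ι → EuclideanSpace ℝ (Fin n)) {R2 : ℝ} (hR : 0 < R2)
    (h : ∀ x : Fin n → ℝ, (∀ j, (f j).ofLp ⬝ᵥ x ≤ 1) → x ⬝ᵥ x ≤ R2) [Fintype ι]
    (y : EuclideanSpace ℝ (Fin n)) (hy : ‖y‖ = 1) : ∃ j, 1 / √R2 ≤ inner ℝ (f j) y := by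
  by_contra hc
  push Not at hc
  have hs : 0 < √R2 := Real.sqrt_pos.mpr hR
  obtain ⟨t, ht1, ht2⟩ : ∃ t : ℝ, √R2 < t ∧ ∀ j, t * inner ℝ (f j) y ≤ 1 := by
    have hev : ∀ᶠ t in nhds (√R2), ∀ j, t * inner ℝ (f j) y < 1 := by
      rw [Filter.eventually_all]
      intro j
      have hc' : Continuous fun t : ℝ => t * inner ℝ (f j) y := by fun_prop
      refine hc'.continuousAt.eventually_lt continuousAt_const ?_
      have := hc j
      rwa [lt_div_iff₀ hs, mul_comm] at this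
    obtain ⟨t, ht, ht'⟩ := ((hev.filter_mono nhdsWithin_le_nhds).and
      (self_mem_nhdsWithin (s := Set.Ioi (√R2)))).exists
    exact ⟨t, ht', fun j => (ht j).le⟩
  have h1 := h (t • y.ofLp) fun j => by
    rw [dotProduct_smul, ← inner_eq_dot]; exact ht2 j
  rw [dotProduct_smul, smul_dotProduct, dot_self_eq, hy] at h1
  have h2 := Real.sq_sqrt hR.le
  simp only [smul_eq_mul, one_pow, mul_one] at h1
  nlinarith

lemma cos_le (hn : 0 < n) (X : Finset (EuclideanSpace ℝ (Fin n)))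
    (hX : ∀ x ∈ X, ‖x‖ = 1) {t : ℝ} (ht : 0 < t)
    (hc : ∀ y : EuclideanSpace ℝ (Fin n), ‖y‖ = 1 → ∃ x ∈ X, t ≤ inner ℝ x y) :
    (n * t) ^ 2 ≤ (X.card : ℝ) - n := by
  have h := cap_ineq (ι := X) hn (fun j => j.1.ofLp) (R := 1 / t) (by positivity)
    (fun j => by rw [dot_self_eq, hX _ j.2]; simp) (fun x hx => by
      rw [div_pow, one_pow]
      exact polar_of_cover ht (fun j : X => j.1) (fun y hy => by
        obtain ⟨x, hx, h⟩ := hc y hy
        exact ⟨⟨x, hx⟩, h⟩) x hx)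
  rw [Fintype.card_coe, div_pow, one_pow, one_div, ← div_eq_inv_mul, le_div_iff₀ (by positivity)] at h
  rwa [mul_pow]

lemma lower (hn : 0 < n) {k : ℕ} {r : ℝ} (h0 : 0 ≤ r) (h1 : r ≤ Real.pi)
    (X : Finset (EuclideanSpace ℝ (Fin n))) (hX : ∀ x ∈ X, ‖x‖ = 1) (hcard : X.card ≤ n + k)
    (hc : Covers X r) : Real.arccos (√k / n) ≤ r := by
  have hn' : (0 : ℝ) < n := by exact_mod_cast hn
  rw [← Real.arccos_cos h0 h1]
  apply Real.arccos_le_arccos
  rcases le_or_gt (Real.cos r) 0 with h | h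
  · exact h.trans (by positivity)
  have h2 := cos_le hn X hX h hc
  have h3 : (X.card : ℝ) ≤ n + k := by exact_mod_cast hcard
  rw [le_div_iff₀ hn', mul_comm]
  exact Real.le_sqrt_of_sq_le (by linarith)

lemma fiber_mod {k : ℕ} (hk : 0 < k) (t : Fin k) :
    (univ.filter fun l : Fin n => (⟨l % k, Nat.mod_lt _ hk⟩ : Fin k) = t).card =
      n / k + if (t : ℕ) < n % k then 1 else 0 := by
  have h := Nat.count_modEq_card n hk t
  rw [Nat.mod_eq_of_lt t.2, Nat.count_eq_card_filter_range] at h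
  rw [← h]
  refine Finset.card_bij (fun l _ => (l : ℕ)) ?_ ?_ ?_
  · intro l hl
    simp only [mem_filter, mem_univ, true_and, Fin.ext_iff] at hl
    simp [Nat.ModEq, hl, Nat.mod_eq_of_lt t.2]
  · intro a _ b _ h; exact Fin.ext h
  · intro b hb
    simp only [mem_filter, mem_range, Nat.ModEq, Nat.mod_eq_of_lt t.2] at hb
    exact ⟨⟨b, hb.1⟩, by simp [Fin.ext_iff, hb.2], rfl⟩

lemma sum_sq_mod {k : ℕ} (hk : 0 < k) :
    ∑ t : Fin k, ((n / k + if (t : ℕ) < n % k then 1 else 0 : ℕ) : ℝ) ^ 2 =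
      (((k - n % k) * (n / k) ^ 2 + n % k * (n / k + 1) ^ 2 : ℕ) : ℝ) := by
  have hs : n % k ≤ k := (Nat.mod_lt _ hk).le
  have h1 : ∀ t : Fin k, ((n / k + if (t : ℕ) < n % k then 1 else 0 : ℕ) : ℝ) ^ 2 =
      ((n / k : ℕ) : ℝ) ^ 2 + if (t : ℕ) < n % k then 2 * ((n / k : ℕ) : ℝ) + 1 else 0 := by
    intro t; split_ifs <;> push_cast <;> ring
  have h2 : (univ.filter fun t : Fin k => (t : ℕ) < n % k).card = n % k := by
    rw [Fin.card_filter_val_lt]; exact min_eq_right hs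
  simp only [h1, sum_add_distrib, ← Finset.sum_filter, sum_const, h2, card_univ, Fintype.card_fin,
    nsmul_eq_mul]
  push_cast [Nat.cast_sub hs]
  ring

lemma exists_config {k : ℕ} (hk : 0 < k) (hkn : k ≤ n) :
    ∃ c : Fin n ⊕ Fin k → EuclideanSpace ℝ (Fin n), (∀ i, ‖c i‖ = 1) ∧
      ∀ y : EuclideanSpace ℝ (Fin n), ‖y‖ = 1 → ∃ i,
        1 / √(((k - n % k) * (n / k) ^ 2 + n % k * (n / k + 1) ^ 2 : ℕ) : ℝ) ≤ inner ℝ (c i) y := by
  let g : Fin n → Fin k := fun l => ⟨l % k, Nat.mod_lt _ hk⟩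
  let d : Fin k → ℕ := fun t => n / k + if (t : ℕ) < n % k then 1 else 0
  have hq : 1 ≤ n / k := (Nat.le_div_iff_mul_le hk).mpr (by omega)
  have hd : ∀ t, 1 ≤ d t := fun t => hq.trans (Nat.le_add_right _ _)
  have hg : ∀ t, (univ.filter fun l => g l = t).card = d t := fiber_mod hk
  obtain ⟨p, hp⟩ := exists_gram g d hd hg
  have hsum : ∑ t, d t = n := by
    have := Finset.card_eq_sum_card_fiberwise (s := univ) (t := univ) (f := g)
      fun j _ => mem_univ _
    simp only [hg, card_univ, Fintype.card_fin] at this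
    exact this.symm
  have hb := gram_bound p (Sum.elim g id) d hd (fun t => by
    rw [← hg t, card_filter, card_filter, Fintype.sum_sum_type]
    congr 1
    exact (Finset.sum_eq_single t (fun b _ hb => if_neg hb) (by simp)).trans (if_pos rfl)) hsum hp
  rw [sum_sq_mod hk] at hb
  refine ⟨fun i => WithLp.toLp 2 (p i), fun i => ?_, ?_⟩
  · have h := dot_self_eq (WithLp.toLp 2 (p i) : EuclideanSpace ℝ (Fin n))
    rw [hp, if_pos rfl] at h
    exact (pow_eq_one_iff_of_nonneg (norm_nonneg _) two_ne_zero).mp h.symm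
  · refine cover_of_polar _ ?_ hb
    rw [← sum_sq_mod hk]
    have : Nonempty (Fin k) := ⟨⟨0, hk⟩⟩
    exact Finset.sum_pos (fun t _ => by have := hd t; positivity) univ_nonempty

lemma one_le_target {k : ℕ} (hk : 0 < k) (hkn : k ≤ n) :
    1 ≤ (k - n % k) * (n / k) ^ 2 + n % k * (n / k + 1) ^ 2 := by
  have hq : 1 ≤ n / k := (Nat.le_div_iff_mul_le hk).mpr (by omega)
  have hs := Nat.mod_lt n hk
  have : 0 < (k - n % k) * (n / k) ^ 2 := Nat.mul_pos (by omega) (by positivity)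
  omega

theorem bounds {k : ℕ} (hk : 0 < k) (hkn : k ≤ n) :
    Real.arccos (√k / n) ≤ rad n k ∧ rad n k ≤ Real.arccos
      (1 / √(((k - n % k) * (n / k) ^ 2 + n % k * (n / k + 1) ^ 2 : ℕ) : ℝ)) := by
  classical
  obtain ⟨c, hc1, hc2⟩ := exists_config hk hkn
  have hmem : Real.arccos (1 / √(((k - n % k) * (n / k) ^ 2 + n % k * (n / k + 1) ^ 2 : ℕ) : ℝ)) ∈
      {r | 0 ≤ r ∧ r ≤ Real.pi ∧ ∃ X : Finset (EuclideanSpace ℝ (Fin n)),
        (∀ x ∈ X, ‖x‖ = 1) ∧ X.card ≤ n + k ∧ Covers X r} := by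
    refine ⟨Real.arccos_nonneg _, Real.arccos_le_pi _, univ.image c, fun x hx => by
      obtain ⟨i, -, rfl⟩ := mem_image.mp hx; exact hc1 i,
      card_image_le.trans (by simp), fun y hy => ?_⟩
    obtain ⟨i, hi⟩ := hc2 y hy
    refine ⟨c i, mem_image_of_mem _ (mem_univ _), ?_⟩
    rwa [Real.cos_arccos (le_trans (b := 0) (by norm_num) (by positivity)) (by
      rw [div_le_one (Real.sqrt_pos.mpr (by exact_mod_cast one_le_target hk hkn))]
      exact Real.one_le_sqrt.mpr (by exact_mod_cast one_le_target hk hkn))]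
  refine ⟨le_csInf ⟨_, hmem⟩ ?_, csInf_le ⟨0, fun r hr => hr.1⟩ hmem⟩
  rintro r ⟨h0, h1, X, hX, hcard, hcov⟩
  exact lower (by omega) h0 h1 X hX hcard hcov

theorem divisible {k : ℕ} (hk : 0 < k) (hkn : k ≤ n) (hdvd : k ∣ n) :
    rad n k = Real.arccos (√k / n) ∧ ∀ X : Finset (EuclideanSpace ℝ (Fin n)),
      (∀ x ∈ X, ‖x‖ = 1) → X.card ≤ n + k → (Covers X (rad n k) ↔
        ∃ f : X → Fin k, (∀ t, (univ.filter fun x => f x = t).card = n / k + 1) ∧
          ∀ x y : X, x ≠ y → inner ℝ x.1 y.1 = if f x = f y then -(k : ℝ) / n else 0) := by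
  classical
  obtain ⟨q, rfl⟩ := hdvd
  have hq : 0 < q := Nat.pos_of_ne_zero (by rintro rfl; simp at hkn; omega)
  have hk' : (0 : ℝ) < k := by exact_mod_cast hk
  have hq' : (0 : ℝ) < q := by exact_mod_cast hq
  have hsk : 0 < √(k : ℝ) := Real.sqrt_pos.mpr hk'
  have hkk := Real.sq_sqrt hk'.le
  have hdiv : k * q / k = q := Nat.mul_div_cancel_left q hk
  have hval : 1 / √((k : ℝ) * q ^ 2) = √k / (k * q : ℕ) := by
    rw [Real.sqrt_mul hk'.le, Real.sqrt_sq hq'.le]
    push_cast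
    field_simp
    exact hkk.symm
  have hrad : rad (k * q) k = Real.arccos (√k / (k * q : ℕ)) := by
    obtain ⟨h1, h2⟩ := bounds hk hkn
    refine le_antisymm (h2.trans (le_of_eq ?_)) h1
    rw [← hval, hdiv]
    simp
  have ht0 : 0 < √(k : ℝ) / (k * q : ℕ) := by positivity
  have hcos : Real.cos (rad (k * q) k) = √k / (k * q : ℕ) := by
    rw [hrad, Real.cos_arccos (le_trans (by norm_num) ht0.le)]
    rw [← hval, div_le_one (by positivity)]
    refine Real.one_le_sqrt.mpr ?_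
    have h1 : (1 : ℝ) ≤ k := by exact_mod_cast hk
    have h2 : (1 : ℝ) ≤ q := by exact_mod_cast hq
    nlinarith
  refine ⟨hrad, fun X hX hcard => ⟨fun hc => ?_, ?_⟩⟩
  · unfold Covers at hc
    rw [hcos] at hc
    have h1 := cos_le (by positivity) X hX ht0 hc
    have h2 : (((k * q : ℕ) : ℝ) * (√k / (k * q : ℕ))) ^ 2 = k := by
      rw [mul_div_cancel₀ _ (by positivity), hkk]
    have h3 : X.card = k * q + k := by
      rw [h2] at h1
      have : ((k * q + k : ℕ) : ℝ) ≤ X.card := by push_cast at h1 ⊢; linarith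
      exact le_antisymm hcard (by exact_mod_cast this)
    obtain ⟨f, hf1, hf2⟩ := classes_of_rigid (ι := X) (by positivity) (fun j => j.1.ofLp) hk
      (by rw [Fintype.card_coe, h3]) (fun j => by rw [dot_self_eq, hX _ j.2]; simp) (fun x hx => by
        have := polar_of_cover ht0 (fun j : X => j.1) (fun y hy => by
          obtain ⟨x, hx, h⟩ := hc y hy
          exact ⟨⟨x, hx⟩, h⟩) x hx
        rwa [div_pow, hkk, one_div_div] at this)
    refine ⟨f, fun t => ?_, fun x y hxy => ?_⟩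
    · rw [hdiv]
      apply Nat.eq_of_mul_eq_mul_right hk
      rw [hf1]; ring
    · rw [inner_eq_dot, hf2, if_neg hxy]
  · rintro ⟨f, hf1, hf2⟩ y hy
    have hb := gram_bound (fun j : X => j.1.ofLp) f (fun _ => q) (fun _ => hq)
      (fun t => by rw [hf1, hdiv]) (by simp) (fun i j => by
        split_ifs with h h'
        · rw [h, dot_self_eq, hX _ j.2]; simp
        · rw [← inner_eq_dot, hf2 i j h, if_pos h']; push_cast; field_simp
        · rw [← inner_eq_dot, hf2 i j h, if_neg h'])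
    simp only [sum_const, card_univ, Fintype.card_fin, nsmul_eq_mul] at hb
    obtain ⟨j, hj⟩ := cover_of_polar (fun j : X => j.1) (by positivity) hb y hy
    exact ⟨j.1, j.2, by rwa [hcos, ← hval]⟩

end Pool.Agent.H.MP_7917db_co
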